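import Pool.Agent.Helper92.Ru.GoalsR

/-! Packet R7 (HeightLocal) of MP_d1d051_nt: heights from local inequalities. -/

set_option autoImplicit false

open NumberField Function

namespace Pool.Agent.Helper96.Ru

open Pool.Agent.Helper92.Ru

theorem iSup_eq_sub {k : Type} [Field k] {ι : Type} [Finite ι] {x : ι → k} (hx : x ≠ 0)
    (f : k → ℝ) (h0 : f 0 = 0) (hf : ∀ a, 0 ≤ f a) :
    ⨆ i, f (x i) = ⨆ i : {j // x j ≠ 0}, f (x i) := by
  obtain ⟨i, hi⟩ := Function.ne_iff.mp hx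
  have hi' : x i ≠ 0 := hi
  have : Nonempty ι := ⟨i⟩
  have : Nonempty {j // x j ≠ 0} := ⟨⟨i, hi'⟩⟩
  refine le_antisymm (ciSup_le fun j => ?_) (ciSup_le fun ⟨j, hj⟩ =>
    Finite.le_ciSup_of_le j le_rfl)
  rcases eq_or_ne (x j) 0 with h | h
  · rw [h, h0]
    exact Real.iSup_nonneg' ⟨⟨i, hi'⟩, hf _⟩
  · exact Finite.le_ciSup_of_le (⟨j, h⟩ : {j // x j ≠ 0}) le_rfl

/-- The local maxima are one at almost all finite places. -/
theorem finSupp_iSup {k : Type} [Field k] [NumberField k] {ι : Type} [Finite ι] {x : ι → k}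
    (hx : x ≠ 0) : HasFiniteMulSupport (fun v : FinitePlace k => ⨆ i, v (x i)) := by
  obtain ⟨i, hi⟩ := Function.ne_iff.mp hx
  have : Nonempty {j // x j ≠ 0} := ⟨⟨i, hi⟩⟩
  have h : (fun v : FinitePlace k => ⨆ i, v (x i)) =
      fun v : FinitePlace k => ⨆ i : {j // x j ≠ 0}, v (x i) := by
    funext v
    exact iSup_eq_sub hx (fun a => v a) (map_zero v) (fun a => apply_nonneg v a)
  rw [h]
  exact HasFiniteMulSupport.iSup fun j => FinitePlace.hasFiniteMulSupport j.2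

theorem heightLocal : HeightLocal := by
  intro k _ _ ι ι' _ _ x y s c hy hc hinf hfin
  have hH : 1 ≤ Height.mulHeight y := Height.one_le_mulHeight y
  rcases eq_or_ne x 0 with rfl | hx
  · rw [Height.mulHeight_zero]
    calc (1 : ℝ) = 1 * 1 := by ring
      _ ≤ c ^ (Module.finrank ℚ k) * Height.mulHeight y ^ s :=
        mul_le_mul (one_le_pow₀ hc) (one_le_pow₀ hH) zero_le_one (by positivity)
  obtain ⟨i₀, hi₀⟩ := Function.ne_iff.mp hx
  have : Nonempty ι := ⟨i₀⟩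
  rw [NumberField.mulHeight_eq hx, NumberField.mulHeight_eq hy, mul_pow]
  have hc0 : 0 ≤ c := by linarith
  have hny : ∀ v : InfinitePlace k, 0 ≤ ⨆ j, v (y j) := fun v =>
    Real.iSup_nonneg fun j => apply_nonneg v _
  have hnyf : ∀ v : FinitePlace k, 0 ≤ ⨆ j, v (y j) := fun v =>
    Real.iSup_nonneg fun j => apply_nonneg v _
  have hnxf : ∀ v : FinitePlace k, 0 ≤ ⨆ j, v (x j) := fun v =>
    Real.iSup_nonneg fun j => apply_nonneg v _
  have h1 : ∏ v : InfinitePlace k, (⨆ i, v (x i)) ^ v.mult ≤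
      c ^ (Module.finrank ℚ k) * (∏ v : InfinitePlace k, (⨆ j, v (y j)) ^ v.mult) ^ s := by
    have e : c ^ (Module.finrank ℚ k) * (∏ v : InfinitePlace k, (⨆ j, v (y j)) ^ v.mult) ^ s =
        ∏ v : InfinitePlace k, (c * (⨆ j, v (y j)) ^ s) ^ v.mult := by
      rw [← InfinitePlace.sum_mult_eq, ← Finset.prod_pow_eq_pow_sum, ← Finset.prod_pow,
        ← Finset.prod_mul_distrib]
      refine Finset.prod_congr rfl fun v _ => ?_
      rw [mul_pow, ← pow_mul, ← pow_mul, mul_comm s]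
    rw [e]
    refine Finset.prod_le_prod (fun v _ => pow_nonneg (Real.iSup_nonneg fun j =>
      apply_nonneg v _) _) fun v _ => ?_
    exact pow_le_pow_left₀ (Real.iSup_nonneg fun j => apply_nonneg v _)
      (ciSup_le fun i => hinf v i) _
  have h2 : ∏ᶠ v : FinitePlace k, ⨆ i, v (x i) ≤
      (∏ᶠ v : FinitePlace k, ⨆ j, v (y j)) ^ s := by
    rw [finprod_pow (finSupp_iSup hy)]
    refine finprod_le_finprod (finSupp_iSup hx) hnxf ?_ fun v => ciSup_le fun i => hfin v i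
    exact (finSupp_iSup hy).pow s
  calc (∏ v : InfinitePlace k, (⨆ i, v (x i)) ^ v.mult) * ∏ᶠ v : FinitePlace k, ⨆ i, v (x i)
      ≤ (c ^ (Module.finrank ℚ k) * (∏ v : InfinitePlace k, (⨆ j, v (y j)) ^ v.mult) ^ s) *
        (∏ᶠ v : FinitePlace k, ⨆ j, v (y j)) ^ s := by
        refine mul_le_mul h1 h2 (finprod_nonneg hnxf) ?_
        have : 0 ≤ ∏ v : InfinitePlace k, (⨆ j, v (y j)) ^ v.mult :=
          Finset.prod_nonneg fun v _ => pow_nonneg (hny v) _
        positivity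
    _ = _ := by rw [mul_assoc]

end Pool.Agent.Helper96.Ru
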