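import Pool.Agent.Helper92.Ru.GoalsH

/-! Packet H7 (Red1) of MP_d1d051_nt: from the coordinates `B` to `IndA`. -/

set_option autoImplicit false

open MvPolynomial

namespace Pool.Agent.Helper96.Ru

open Pool.Agent.Helper92.Ru

theorem supp_le {k : Type} [Field k] {σ τ : Type}
    (Θ : MvPolynomial σ k →ₐ[k] MvPolynomial τ k) (K : σ →₀ ℕ) (c : k) (p : σ) (t : τ)
    (hp : Θ (X p) = X t) : ∀ e ∈ (Θ (monomial K c)).support, K p ≤ e t := by
  classical
  intro e he
  by_cases h0 : K p = 0
  · rw [h0]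
    exact Nat.zero_le _
  have hps : p ∈ K.support := Finsupp.mem_support_iff.2 h0
  have e1 : Θ (monomial K c) = monomial (Finsupp.single t (K p)) 1 *
      (C c * ∏ q ∈ K.support.erase p, Θ (X q) ^ K q) := by
    rw [monomial_eq, map_mul, Finsupp.prod, map_prod, ← Finset.mul_prod_erase _ _ hps, map_pow, hp,
      X_pow_eq_monomial, algHom_C]
    simp only [map_pow]
    rw [algebraMap_eq]
    ring
  rw [e1, mem_support_iff, coeff_monomial_mul'] at he
  split_ifs at he with h
  · exact Finsupp.single_le_iff.1 h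
  · exact absurd rfl he

theorem subM_inv {k : Type} [Field k] {m : ℕ} {ι : Type} [Fintype ι] [DecidableEq ι]
    (B : Fin m → Matrix ι ι k) (hdet : ∀ h, (B h).det ≠ 0) (P : MvPolynomial (Fin m × ι) k) :
    subM (fun h => (B h)⁻¹) (subM B P) = P := by
  have h1 : (subM (fun h => (B h)⁻¹)).comp (subM B) =
      AlgHom.id k (MvPolynomial (Fin m × ι) k) := by
    apply MvPolynomial.algHom_ext
    rintro ⟨h, i⟩
    have hB : B h * (B h)⁻¹ = 1 := Matrix.mul_nonsing_inv _ (isUnit_iff_ne_zero.2 (hdet h))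
    have h2 : ∀ t, ∑ j, B h i j * (B h)⁻¹ j t = if i = t then 1 else 0 := by
      intro t
      have := congrFun (congrFun hB i) t
      rw [Matrix.mul_apply, Matrix.one_apply] at this
      exact this
    simp only [subM, AlgHom.comp_apply, aeval_X, map_sum, map_mul, algHom_C, algebraMap_eq,
      AlgHom.id_apply]
    calc ∑ j, C (B h i j) * ∑ t, C ((B h)⁻¹ j t) * X (h, t)
        = ∑ j, ∑ t, C (B h i j * (B h)⁻¹ j t) * X (h, t) := by
          refine Finset.sum_congr rfl fun j _ => ?_
          rw [Finset.mul_sum]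
          refine Finset.sum_congr rfl fun t _ => ?_
          rw [C_mul, mul_assoc]
      _ = ∑ t, C (∑ j, B h i j * (B h)⁻¹ j t) * X (h, t) := by
          rw [Finset.sum_comm]
          refine Finset.sum_congr rfl fun t _ => ?_
          rw [map_sum, Finset.sum_mul]
      _ = X (h, i) := by
          simp only [h2]
          rw [Finset.sum_eq_single i]
          · simp
          · intro b _ hb
            rw [if_neg (Ne.symm hb), C_0, zero_mul]
          · intro h; exact absurd (Finset.mem_univ i) h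
  exact congrArg (fun f : MvPolynomial (Fin m × ι) k →ₐ[k] MvPolynomial (Fin m × ι) k => f P) h1

theorem red1 : Red1 := by
  classical
  intro k _ m ι _ _ r P B st l θ hdet hne hK e he
  set Θ : MvPolynomial (Fin m × ι) k →ₐ[k] MvPolynomial (Fin m × ι) k :=
    (PsiA (fun h => (B h)⁻¹ (st h)) l).comp (subM (fun h => (B h)⁻¹)) with hΘ
  have hX : ∀ h, Θ (X (h, st h)) = X (h, l h) := by
    intro h
    have h1 : ∀ j, (PsiA (fun h => (B h)⁻¹ (st h)) l) (X (h, j)) = if j = l h then
        C (((B h)⁻¹ (st h) (l h))⁻¹) * (X (h, j) - ∑ i ∈ Finset.univ.erase (l h),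
          C ((B h)⁻¹ (st h) i) * X (h, i)) else X (h, j) := by
      intro j
      rw [PsiA, aeval_X]
    rw [hΘ, AlgHom.comp_apply, subM, aeval_X, map_sum]
    simp only [map_mul, algHom_C, algebraMap_eq, h1]
    rw [← Finset.add_sum_erase _ _ (Finset.mem_univ (l h)), if_pos rfl, ← mul_assoc, ← C_mul,
      mul_inv_cancel₀ (hne h), C_1, one_mul]
    have h2 : ∑ x ∈ Finset.univ.erase (l h), C ((B h)⁻¹ (st h) x) * (if x = l h then
        C (((B h)⁻¹ (st h) (l h))⁻¹) * (X (h, x) - ∑ i ∈ Finset.univ.erase (l h),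
          C ((B h)⁻¹ (st h) i) * X (h, i)) else X (h, x)) =
        ∑ x ∈ Finset.univ.erase (l h), C ((B h)⁻¹ (st h) x) *
          (X (h, x) : MvPolynomial (Fin m × ι) k) := by
      refine Finset.sum_congr rfl fun x hx => ?_
      rw [if_neg (Finset.ne_of_mem_erase hx)]
    rw [h2]
    ring
  have hP : PsiA (fun h => (B h)⁻¹ (st h)) l P = Θ (subM B P) := by
    rw [hΘ, AlgHom.comp_apply, subM_inv B hdet]
  rw [hP, (subM B P).as_sum, map_sum] at he
  obtain ⟨K, hKs, heK⟩ := Finset.mem_biUnion.1 (MvPolynomial.support_sum he)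
  refine (hK K hKs).trans (Finset.sum_le_sum fun h _ => ?_)
  have h3 := supp_le Θ K _ (h, st h) (h, l h) (hX h) e heK
  exact div_le_div_of_nonneg_right (by exact_mod_cast h3) (Nat.cast_nonneg _)

end Pool.Agent.Helper96.Ru
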